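import Pool.Agent.Q16.GR.CNR
import Pool.Agent.Q269.GJ.StC

/-!
# Project GJ, job CNY: the own symbols of a prime, a given value (helper251)
Adapted from `t_CNR` of project GR (helper16, helper177, helper24).
-/

set_option autoImplicit false
set_option linter.all false

open scoped Classical
open Finset Polynomial

namespace Pool.Agent.Q251.GJ

open Pool.Agent.Q269.GR
open Pool.Agent.Y164.PS (L sg sg_zero sg_one sg_add sg_sum)
open Pool.Agent.H341R2.Sharp (Mon)
open Pool.Agent.Q177.GT (exists_P geom_le prod_deg not_sq)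
open Pool.Agent.Q16.GR

theorem t_CNY (h0 : Pool.Agent.Q269.GR.S_FLD) (h1 : Pool.Agent.Q269.GR.S_SGD)
    (h2 : Pool.Agent.Q269.GR.S_RTP) (h4 : Pool.Agent.Q269.GR.S_IRC) : Pool.Agent.Q269.GJ.S_CNY := by
  intro k _ _ hk hsq hq5 r F _ _ _ ξ hξ d hd hrd y₀
  obtain ⟨q, hq⟩ : ∃ q, q = Fintype.card k := ⟨_, rfl⟩
  obtain ⟨E, _, _, _, j, hcard, hfr, hj⟩ := h0 k d hd
  have hr0 := r_pos hξ
  have hξr := pow_r hξ
  have hq0 : (0 : ℝ) < Fintype.card k := by exact_mod_cast (by omega : 0 < Fintype.card k)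
  obtain ⟨f, hf⟩ : ∃ f, f = orderOf (2 : ZMod r) := ⟨_, rfl⟩
  rw [← hf]
  obtain ⟨u, hu⟩ : ∃ u, u = f / 4 := ⟨_, rfl⟩
  rw [← hu]
  have hrle : r ≤ d := Nat.le_of_dvd hd hrd
  have hfle : f ≤ r := by
    have h5 : minpoly F2 ξ ∣ X ^ r - 1 := minpoly.dvd _ _ (by simp [hξr])
    have h6 : (X ^ r - 1 : F2[X]).natDegree = r := by
      have := natDegree_X_pow_sub_C (R := F2) (n := r) (r := 1)
      rwa [C_1] at this
    have h7 : (X ^ r - 1 : F2[X]) ≠ 0 := by
      intro h
      rw [h, natDegree_zero] at h6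
      omega
    have h8 := natDegree_le_of_dvd h5 h7
    rw [h6] at h8
    rw [hf]
    exact (minpoly_deg hξ).trans h8
  have hr3 : 3 ≤ r := by
    have := hξ.lt
    obtain ⟨t, ht⟩ := hξ.odd
    omega
  have hud : u ≤ (d - 1) / 2 := by omega
  -- the span
  haveI := charF (F := F)
  have hne1 : ξ ≠ 1 := by
    rintro rfl
    have := hξ.ord
    rw [orderOf_one] at this
    have := hξ.lt
    omega
  obtain ⟨W, hW⟩ : ∃ W : ℕ, W = Nat.card (Submodule.span F2 ((fun i : ℕ => ξ ^ i + ξ⁻¹ ^ i) ''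
    Set.Icc 1 ((d - 1) / 2))) := ⟨_, rfl⟩
  have hWf : 2 ^ f ≤ W ^ 2 := by
    have h5 := Pool.Agent.Q24.GT.card_le hξ.odd hξr hne1
    have h6 : Nat.card (Pool.Agent.Q24.GT.YY ξ r) ≤ W := by
      rw [hW]
      have h7 : Pool.Agent.Q24.GT.YY ξ r ≤ Submodule.span F2 ((fun i : ℕ => ξ ^ i + ξ⁻¹ ^ i) ''
          Set.Icc 1 ((d - 1) / 2)) := by
        unfold Pool.Agent.Q24.GT.YY
        rw [Submodule.span_le]
        rintro _ ⟨i, hi, rfl⟩
        refine Submodule.subset_span ⟨i, ⟨hi.1, ?_⟩, ?_⟩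
        · have := hi.2
          omega
        · show ξ ^ i + ξ⁻¹ ^ i = ξ ^ i + ξ ^ (r - i)
          rw [Pool.Agent.Q24.GT.pow_sub_m hr0.ne' hξr (by have := hi.2; omega)]
      exact Nat.card_le_card_of_injective _ (Submodule.inclusion_injective h7)
    calc 2 ^ f ≤ 2 ^ (minpoly F2 ξ).natDegree :=
          Nat.pow_le_pow_right (by norm_num) (by rw [hf]; exact minpoly_deg hξ)
      _ ≤ (Nat.card (Pool.Agent.Q24.GT.YY ξ r)) ^ 2 := h5
      _ ≤ W ^ 2 := Nat.pow_le_pow_left h6 2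
  have hWu : 2 ^ (2 * u) ≤ W := by
    have h5 : (2 ^ (2 * u)) ^ 2 ≤ W ^ 2 := by
      refine le_trans ?_ hWf
      rw [← pow_mul]
      exact Nat.pow_le_pow_right (by norm_num) (by omega)
    exact (Nat.pow_le_pow_iff_left (by norm_num)).1 h5
  have hWr : (2 : ℝ) ^ (2 * u) ≤ W := by exact_mod_cast hWu
  have hconst : (2 : ℝ) ^ u / W + 2 / (Fintype.card k : ℝ) ^ u ≤ 3 / 2 ^ u := by
    have e1 : (2 : ℝ) ^ u / W ≤ 1 / 2 ^ u := by
      rw [div_le_div_iff₀ (lt_of_lt_of_le (by positivity) hWr) (by positivity), one_mul, ← pow_add,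
        ← two_mul]
      exact hWr
    have e2 : 2 / (Fintype.card k : ℝ) ^ u ≤ 2 / 2 ^ u := by
      apply div_le_div_of_nonneg_left (by norm_num) (by positivity)
      apply pow_le_pow_left₀ (by norm_num)
      have : (5 : ℝ) ≤ Fintype.card k := by exact_mod_cast hq5
      linarith
    have e3 : (3 : ℝ) / 2 ^ u = 1 / 2 ^ u + 2 / 2 ^ u := by ring
    linarith
  -- one value
  have hval : ∀ y : F, (d : ℝ) * ((Irn k d).filter fun P => own r ξ P = y).card ≤
      (Fintype.card k : ℝ) ^ d * (3 / 2 ^ u) := by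
    intro y
    obtain ⟨S, hS⟩ : ∃ S, S = (Irn k d).filter fun P => own r ξ P = y := ⟨_, rfl⟩
    rw [← hS]
    have hSK : ∀ P' ∈ S, P'.Monic ∧ P'.natDegree = d ∧ Irreducible P' := fun P' hP' => by
      rw [hS, mem_filter] at hP'
      exact mem_Irn.1 hP'.1
    have hKK : ∀ p : k[X], p ∈ S → (rt p) ^ (Fintype.card k ^ d) = rt p := by
      intro p hp
      obtain ⟨m1, m2, m3⟩ := hSK _ hp
      have h4 : (rt p) ^ (Fintype.card k ^ p.natDegree) = rt p := (h2 k p m1 m3).2.1
      rwa [m2] at h4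
    have hpre : ∀ p : k[X] × ℕ, ∃ x : E, p.1 ∈ S → j x = rt p.1 ^ (Fintype.card k ^ p.2) := by
      intro p
      by_cases hp : p.1 ∈ S
      · have h3 : inK k d (rt p.1 ^ (Fintype.card k ^ p.2)) := by
          show (rt p.1 ^ (Fintype.card k ^ p.2)) ^ (Fintype.card k ^ d) = _
          rw [← pow_mul, mul_comm, pow_mul, hKK _ hp]
        obtain ⟨x, hx⟩ := (hj _).1 h3
        exact ⟨x, fun _ => hx⟩
      · exact ⟨0, fun h => absurd h hp⟩
    choose ψ hψ using hpre
    have hinj : Set.InjOn ψ (S ×ˢ range d : Finset (k[X] × ℕ)) := by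
      rintro ⟨A, i⟩ hA ⟨B, i'⟩ hB he
      rw [mem_coe, mem_product, mem_range] at hA hB
      have e1 := hψ (A, i) hA.1
      have e2 := hψ (B, i') hB.1
      rw [he, e2] at e1
      obtain ⟨m1, m2, m3⟩ := hSK _ hA.1
      obtain ⟨n1, n2, n3⟩ := hSK _ hB.1
      dsimp only at m1 m2 m3 n1 n2 n3 e1 hA hB
      have hAB : A = B := by
        by_contra hne
        exact (h2 k B n1 n3).2.2.2.2 A m1 m3 hne i' i e1
      subst hAB
      have h5 := ((h2 k A m1 m3).2.2.2.1 i' i).1 e1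
      rw [m2] at h5
      have h6 : i' % d = i % d := h5
      rw [Nat.mod_eq_of_lt hA.2, Nat.mod_eq_of_lt hB.2] at h6
      rw [h6]
    have hT := cnt_gen hk hj hcard hd (fun i : ℕ => ξ ^ i + ξ⁻¹ ^ i) y u hud
      ((S ×ˢ range d).image ψ) (by
        intro x hx
        rw [mem_image] at hx
        obtain ⟨⟨A, i⟩, hA, rfl⟩ := hx
        rw [mem_product, mem_range] at hA
        obtain ⟨m1, m2, m3⟩ := hSK _ hA.1
        have e1 := hψ (A, i) hA.1
        dsimp only at m1 m2 m3 e1 hA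
        constructor
        · intro l hl1 hl2 he
          have e2 := congrArg j he
          rw [map_pow, e1, pow_pow_q] at e2
          have h5 := ((h2 k A m1 m3).2.2.2.1 (i + l) i).1 e2
          rw [m2] at h5
          have h6 : i + l ≡ i + 0 [MOD d] := h5
          have h7 := Nat.ModEq.add_left_cancel' i h6
          have h8 : l % d = 0 % d := h7
          rw [Nat.zero_mod, Nat.mod_eq_of_lt (by omega)] at h8
          omega
        · have hAS := hA.1
          rw [hS, mem_filter] at hAS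
          rw [← hAS.2, own_eq hk hsq h1 h2 hξ m1 m3 m2 hrd]
          refine sum_congr rfl fun l _ => ?_
          congr 1
          rw [map_sub, map_pow, e1, pow_pow_q, add_comm, ← pow_pow_q, ← sub_q]
          refine (h1 k hk d hd).2.1 _ i ?_
          show (rt A - rt A ^ (Fintype.card k ^ l)) ^ (Fintype.card k ^ d) = _
          rw [sub_q, hKK A hA.1, pow_pow_q, add_comm, ← pow_pow_q, hKK A hA.1])
    rw [card_image_of_injOn hinj, card_product, card_range, ← hW] at hT
    push_cast at hT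
    have h5 := mul_le_mul_of_nonneg_left hconst (by positivity : (0 : ℝ) ≤ (Fintype.card k : ℝ) ^ d)
    linarith
  have h5 := (h4 k hq5 d hd).2.1
  have hd0 : (0 : ℝ) < d := by exact_mod_cast hd
  have h6 := hval y₀
  have h9 : (Fintype.card k : ℝ) ^ d * (3 / 2 ^ u) ≤ (2 * d * (Irn k d).card) * (3 / 2 ^ u) :=
    mul_le_mul_of_nonneg_right h5 (by positivity)
  have h10 : (d : ℝ) * ((Irn k d).filter fun P => own r ξ P = y₀).card ≤
      d * (6 / 2 ^ u * (Irn k d).card) := by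
    refine h6.trans (h9.trans (le_of_eq ?_))
    ring
  exact le_of_mul_le_mul_left h10 hd0

end Pool.Agent.Q251.GJ
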