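import Pool.Agent.Q269.GJ.StF

/-!
# Project GJ, job HYM: the hypotheses over the constant extension (helper251)
Adapted from `t_HYM` of project GR (helper210).
-/

set_option autoImplicit false
set_option linter.all false

open scoped Classical
open Finset Polynomial

namespace Pool.Agent.Q251.GJ

open Pool.Agent.Q269.GJ
open Pool.Agent.Q269.GR (Dn)
open Pool.Agent.Y164.HG (Geo Del)
open Pool.Agent.H341R2.Sharp (mem_Mon)

theorem t_HYM : S_HYM := by
  intro k k' _ _ _ _ _ n a N H
  have hinj : Function.Injective (algebraMap k k') := (algebraMap k k').injective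
  have hDel : Del (am k' a) = (Del a).map (algebraMap k k') := by
    unfold Del am
    rw [Polynomial.map_prod]
    exact prod_congr rfl fun x _ => by rw [Polynomial.map_sub]
  refine ⟨⟨?_, ?_, H.hn, H.hn3, H.hN, ?_, ?_⟩, hDel, ?_⟩
  · rw [← Algebra.ringChar_eq k k']
    exact H.hk
  · have := H.hm.map (algebraMap k k')
    rwa [map_neg, map_one] at this
  · intro i j hij
    show ((a i).map (algebraMap k k') - (a j).map (algebraMap k k')).natDegree = N
    rw [← Polynomial.map_sub, natDegree_map, H.hdeg i j hij]
  · rw [hDel]
    have h5 : (Del a).Separable := PerfectField.separable_iff_squarefree.2 H.hsq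
    exact (h5.map (f := algebraMap k k')).squarefree
  · intro m D hD
    unfold Dn at hD ⊢
    rw [mem_filter, mem_Mon] at hD ⊢
    obtain ⟨⟨h1, h2⟩, h3, h4⟩ := hD
    refine ⟨⟨h1.map _, by rw [natDegree_map, h2]⟩, ?_, ?_⟩
    · have h5 : D.Separable := PerfectField.separable_iff_squarefree.2 h3
      exact (h5.map (f := algebraMap k k')).squarefree
    · have h6 := h4.map (Polynomial.mapRingHom (algebraMap k k'))
      rw [hDel]
      exact h6

end Pool.Agent.Q251.GJ
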